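import Pool.Agent.N599.HO.List

/-!
# Stark's conjecture: reduction to L-functions which vanish to high order at `0`

`K` is a number field and `N` a natural number.  There is a relation `∑ e_j [F_j] = [K]`, with coefficient `1` on
the right, between the permutation characters of finite extensions `F_j` of `K` of the following simple kind: for
a prime number `q > N` the degree of `F_j` over `K` is `q` or `q ^ 2`, and `F_j` is generated over `K` by `q`-th
roots of natural numbers; `F_j` has more than `N` complex places (`Pool.Agent.N599.HO.Cnt`, `Pure`, `List`).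

So for ALL finite Galois extensions `M` of `K` that contain the `F_j`, all finite sets `S` of places with the
infinite places, all characters `χ` of `Gal(M / K)` unramified outside `S`, of degree `n`, and all isomorphisms
`φ : ℚ ⊗ X → ℚ ⊗ 𝒪_{M,S}^×`:
* `A_S(χ, φ) = ∏ A_S(χ|_{F_j}, φ) ^ e_j`;
* the order of vanishing of `L_S(s, χ|_{F_j})` at `0`, which is `dim Hom(V_χ^*, ℂ ⊗ X)^{Gal(M / F_j)}`, is at
  least `n N` (`Pool.Agent.N599.HO.Ord`);
* Stark's conjecture for the `χ|_{F_j}` implies Stark's conjecture for `χ`.
Hence for every `N` Stark's conjecture follows from its case for characters whose L-functions vanish to order at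
least `N` at `0`; no condition on `χ` or `K`, for example `K` totally real and `χ` totally odd are allowed.

The proof.  Let `q` be an odd prime number and `l, m` prime numbers such that `l` is not a `q`-th power in `K` and
`m` is not a `q`-th power in `K(l^{1/q})`.  Then
`∑_{i < q} [K((l m^i)^{1/q})] + [K(m^{1/q})] = [K(l^{1/q}, m^{1/q})] + q [K]`, since for each automorphism `σ` of
the algebraic closure the numbers of the `q`-th roots of `l m^i` fixed by `σ` are given by linear equations over
`ℤ/q` (`Cnt`, `Pure`).  A real embedding of `K` has one real extension to each of these fields, so they have many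
complex places.  Two different `q` give coefficient `1`.  Over a complex place `w` of `F` the places of `M` are a
principal homogeneous space of `Gal(M / F)`, so each such `w` contributes `n` to the dimension.  The behaviour of
regulators and L-functions under relations is `Pool.Agent.N19.BR.StMain` (see
`Pool.Agent.Results.MP_46b841_nt.SpecialBaseFields`).

The definitions are in `Pool.Agent.N19.BR.StDefs`, `ADefs`, `TDefs` and `Pool.Agent.N599.HO.Ord`, `List`.
-/

set_option autoImplicit false

namespace Pool.Agent.Results.MP_46b841_nt.HighOrders

open NumberField IsDedekindDomain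
open Pool.Agent.N19.BR.TDef (FieldList)
open Pool.Agent.N19.BR.SDef
open Pool.Agent.N599.HO (RadicalList OrderAtLeast)

/-- **Stark's conjecture and high orders of vanishing.**  For every number field `K` and every `N` there is a
finite list of number fields `F_j ⊇ K` with integers `e_j`, such that each `F_j` is generated over `K` by `q`-th
roots of natural numbers and has degree `q` or `q ^ 2` for a prime `q > N`, and has more than `N` complex places,
and such that the following holds for ALL finite Galois extensions `M` of `K` with embeddings of the `F_j`, all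
finite sets `S` of primes of `K`, all complex representations `ρ` of `Gal(M / K)` of dimension `n`, unramified
outside `S`, with character `χ`, and all `φ`, where `T` is `λ ∘ φ`: the order of vanishing of
`L_S(s, χ|_{F_j})` at `0` is at least `n N`, `A_S(χ, φ) = ∏ A_S(χ|_{F_j}, φ) ^ e_j` (and `L_S(s, χ)` has a
meromorphic continuation if the `L_S(s, χ|_{F_j})` have), and if Stark's conjecture
`A_S(χ|_{F_j}, φ)^σ = A_S(χ^σ|_{F_j}, φ)` is true over all the fields `F_j`, then it is true over `K`. -/
theorem result (K : Type) [Field K] [NumberField K] (N : ℕ) :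
    ∃ Y : FieldList K, RadicalList N Y ∧
      ∀ (M : Type) [Field M] [NumberField M] [Algebra K M] [IsGalois K M]
        (f : ∀ j, Y.F j →ₐ[K] M) (S : Set (HeightOneSpectrum (𝓞 K))), S.Finite →
      ∀ (n : ℕ) (ρ : Gal(M/K) →* Matrix (Fin n) (Fin n) ℂ), Unramified S ρ →
      ∀ T : (Place S M → ℂ) →ₗ[ℂ] (Place S M → ℂ), IsStarkMap S T →
        (∀ j, OrderAtLeast S ρ (f j) (n * N)) ∧
        (∀ A : Fin Y.r → ℂ, (∀ j, IsStarkQuotient S ρ T (f j) (A j)) →
          IsStarkQuotient S ρ T (Algebra.ofId K M) (∏ j, A j ^ Y.e j)) ∧
        ((∀ j, StarkConjecture S ρ T (f j)) → StarkConjecture S ρ T (Algebra.ofId K M)) := by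
  obtain ⟨Y, hY, hrel⟩ := Pool.Agent.N599.HO.radical_list K N
  refine ⟨Y, hY, fun M _ _ _ _ f S hS n ρ hρ T hT => ⟨fun j => ?_, fun A hA => ?_, fun h => ?_⟩⟩
  · exact Pool.Agent.N599.HO.order_ge ρ (f j) (hY.2 j).2
  · exact Pool.Agent.N19.BR.quotient_rel (Z := fun j => (⟨Y.F j⟩ : Pool.Agent.R433.MD.Ext K))
      (e := Y.e) (A := A) hS hρ hrel f hT hA
  · exact Pool.Agent.N19.BR.stark_of_rel (Z := fun j => (⟨Y.F j⟩ : Pool.Agent.R433.MD.Ext K))
      (e := Y.e) hS hρ hrel f hT h

end Pool.Agent.Results.MP_46b841_nt.HighOrders
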