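import Pool.Agent.N41.RM.Hk

/-!
# The leading terms in Stark's conjecture as limits of absolutely convergent sums over primes

Let `K` be a number field and `ψ` a primitive ray class character of `K`.  By class field theory these
are the one-dimensional characters `χ` of the groups `Gal(L/K)`, and by Brauer's theorem Stark's
conjecture for all characters follows from the conjecture for the one-dimensional characters of all
number fields.  Let `S` be a finite set of primes of `K` (the finite places in the set `S` of the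
problem), `L_S(s, ψ) = ∏_{v ∉ S} (1 - ψ(v) q_v^{-s})⁻¹`, `r = r_S(ψ)` the order of vanishing at `s = 0` and
`L_S^*(0, ψ)` the leading coefficient.  The Euler product does not converge at `s = 0`.  For `γ > π/2`
and every complex `s` let

`W(s, T) = ∑_{v ∉ S} ∑_{k ≥ 1} ψ(v)^k / (k q_v^{ks}) · e^{iγ k log q_v / T} / Γ(1 + k log q_v / T)`,

an absolutely convergent series in which the weight of each single term tends to `1` as `T → ∞`.  We
prove without any hypothesis on the zeros of the L-function, for every `K`, `ψ`, `S` and `s`,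

`W(s, T) = -r (log T - Λ_γ) + ℓ + O(1/T)`,  `Λ_γ = ∫_0^∞ (e^{-u} - e^{iγu} / Γ(1 + u)) du / u`,

where `r` is the order of `L_S(·, ψ)` at the point `s` and `ℓ` is a logarithm of its leading coefficient.
In particular `L_S^*(0, ψ) = lim_{T → ∞} (T e^{-Λ_γ})^r exp W(0, T)`, and Stark's equation
`A_S(ψ, φ)^σ = A_S(ψ^σ, φ)`, where `A_S = R_S / L_S^*(0)`, is equivalent to a statement on the behaviour of
two such products over the primes of `K`, for `ψ` and for `ψ^σ`, along a sequence `T_n → ∞`.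
-/

set_option autoImplicit false

open scoped Classical

namespace Pool.Agent.Results.MP_46b841_nt.LeadingTermsFromPrimes

open NumberField IsDedekindDomain Filter Topology

section defs

variable {K : Type} [Field K] [NumberField K]

/-- `∏_w sgn(x_w)^(e_w)`, for `e_w` supported on the real places `w`. -/
noncomputable def signs (e : InfinitePlace K → ℕ) (x : K) : ℂ :=
  ∏ w, (((SignType.sign (w.embedding x).re : SignType) : ℤ) : ℂ) ^ e w

/-- `ψ`, a multiplicative function on the ideals of `K`, is a primitive ray class character of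
conductor `𝔣` times the real places `w` with `e w = 1`: it is nonzero exactly on the ideals prime to
`𝔣`, `ψ((x)) = ∏_w sgn(x_w)^(e_w)` for `x ≡ 1 mod 𝔣`, and it is not trivial on the totally positive
`x ≡ 1 mod 𝔤` prime to `𝔣` for any proper divisor `𝔤` of `𝔣`. -/
structure IsRayClassCharacter (𝔣 : Ideal (𝓞 K)) (e : InfinitePlace K → ℕ)
    (ψ : Ideal (𝓞 K) →*₀ ℂ) : Prop where
  ne_bot : 𝔣 ≠ ⊥
  sig_le : ∀ w, e w ≤ 1
  cpx : ∀ w : InfinitePlace K, w.IsComplex → e w = 0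
  supp : ∀ 𝔞 : Ideal (𝓞 K), 𝔞 ≠ ⊥ → (ψ 𝔞 ≠ 0 ↔ IsCoprime 𝔞 𝔣)
  sig : ∀ x : 𝓞 K, x ≠ 0 → x - 1 ∈ 𝔣 → ψ (Ideal.span {x}) = signs e (x : K)
  prim : ∀ 𝔤 : Ideal (𝓞 K), 𝔤 ∣ 𝔣 → 𝔤 ≠ 𝔣 →
    ∃ x : 𝓞 K, x - 1 ∈ 𝔤 ∧ (∀ τ : K →+* ℝ, 0 < τ (x : K)) ∧ IsCoprime (Ideal.span {x}) 𝔣 ∧
      ψ (Ideal.span {x}) ≠ 1

/-- The conjugate character `ψ^σ = σ ∘ ψ`. -/
noncomputable def conj (σ : ℂ ≃+* ℂ) (ψ : Ideal (𝓞 K) →*₀ ℂ) : Ideal (𝓞 K) →*₀ ℂ :=
  (σ : ℂ →+* ℂ).toMonoidWithZeroHom.comp ψ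

/-- The Euler product `L_S(s, ψ) = ∏_{v ∉ S} (1 - ψ(v) q_v^{-s})⁻¹`. -/
noncomputable def LS (ψ : Ideal (𝓞 K) →*₀ ℂ) (S : Finset (HeightOneSpectrum (𝓞 K))) (s : ℂ) : ℂ :=
  ∏' v : HeightOneSpectrum (𝓞 K), if v ∈ S then 1 else
    (1 - ψ v.asIdeal * ((Ideal.absNorm v.asIdeal : ℕ) : ℂ) ^ (-s))⁻¹

/-- `L` is the continuation of `L_S(s, ψ)`: it is meromorphic in the plane and equal to the Euler
product for `Re s > 1`. -/
def IsContinuation (ψ : Ideal (𝓞 K) →*₀ ℂ) (S : Finset (HeightOneSpectrum (𝓞 K))) (L : ℂ → ℂ) :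
    Prop :=
  (∀ s, MeromorphicAt L s) ∧ ∀ s : ℂ, 1 < s.re → L s = LS ψ S s

/-- The term of `W(s, T)` for the prime `v = x.1` and the exponent `k = x.2 + 1`:
`ψ(v)^k / (k q_v^{sk}) · e^{iγ k log q_v / T} / Γ(1 + k log q_v / T)`, and `0` if `v ∈ S`. -/
noncomputable def term (ψ : Ideal (𝓞 K) →*₀ ℂ) (S : Finset (HeightOneSpectrum (𝓞 K))) (γ : ℝ)
    (s : ℂ) (T : ℝ) (x : HeightOneSpectrum (𝓞 K) × ℕ) : ℂ :=
  if x.1 ∈ S then 0 else
    ψ x.1.asIdeal ^ (x.2 + 1) /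
        ((x.2 + 1) * ((Ideal.absNorm x.1.asIdeal : ℕ) : ℂ) ^ (s * (x.2 + 1))) *
      (Complex.exp ((γ * ((x.2 + 1) * Real.log (Ideal.absNorm x.1.asIdeal) / T) : ℝ) * Complex.I) /
        (Real.Gamma (1 + (x.2 + 1) * Real.log (Ideal.absNorm x.1.asIdeal) / T) : ℂ))

/-- `W(s, T)`. -/
noncomputable def W (ψ : Ideal (𝓞 K) →*₀ ℂ) (S : Finset (HeightOneSpectrum (𝓞 K))) (γ : ℝ)
    (s : ℂ) (T : ℝ) : ℂ := ∑' x : HeightOneSpectrum (𝓞 K) × ℕ, term ψ S γ s T x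

/-- `Λ_γ = ∫_0^∞ (e^{-u} - e^{iγu} / Γ(1 + u)) du / u`. -/
noncomputable def Lam (γ : ℝ) : ℂ := ∫ u in Set.Ioi (0 : ℝ),
  (Complex.exp (-(u : ℂ)) - Complex.exp ((γ * u : ℝ) * Complex.I) * ((Real.Gamma (1 + u))⁻¹ : ℝ)) / u

/-- `(T e^{-Λ_γ})^ρ exp W(s, T)`. -/
noncomputable def prodAt (ψ : Ideal (𝓞 K) →*₀ ℂ) (S : Finset (HeightOneSpectrum (𝓞 K))) (γ : ℝ)
    (s : ℂ) (ρ : ℤ) (T : ℝ) : ℂ :=
  ((T : ℂ) * Complex.exp (-Lam γ)) ^ ρ * Complex.exp (W ψ S γ s T)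

/-- The leading coefficient of `L` at `0`. -/
noncomputable def lead (L : ℂ → ℂ) : ℂ := meromorphicTrailingCoeffAt L 0

end defs

section bridge

variable {K : Type} [Field K] [NumberField K] {𝔣 : Ideal (𝓞 K)} {e : InfinitePlace K → ℕ}
  {ψ : Ideal (𝓞 K) →*₀ ℂ}

theorem isRay (h : IsRayClassCharacter 𝔣 e ψ) : Pool.Agent.R362.HL.IsRay 𝔣 e ψ :=
  ⟨h.ne_bot, h.sig_le, h.cpx, h.supp, h.sig, h.prim⟩

theorem isRay_conj (h : IsRayClassCharacter 𝔣 e ψ) (σ : ℂ ≃+* ℂ) :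
    Pool.Agent.R362.HL.IsRay 𝔣 e (conj σ ψ) :=
  Pool.Agent.N41.RM.ray_conj (isRay h) (σ : ℂ →+* ℂ)

theorem term_eq (ψ : Ideal (𝓞 K) →*₀ ℂ) (S : Finset (HeightOneSpectrum (𝓞 K))) (γ : ℝ)
    (s : ℂ) (T : ℝ) (x : HeightOneSpectrum (𝓞 K) × ℕ) : term ψ S γ s T x =
    Pool.Agent.N41.RM.cterm Pool.Agent.N41.RM.qv (Pool.Agent.N41.RM.rayA ψ S) s γ T x := by
  unfold term Pool.Agent.N41.RM.cterm
  rw [Fin.sum_univ_one]
  unfold Pool.Agent.N41.RM.rayA Pool.Agent.N41.RM.qv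
  split_ifs with hv
  · simp
  · rw [Complex.ofReal_natCast]

theorem W_eq (ψ : Ideal (𝓞 K) →*₀ ℂ) (S : Finset (HeightOneSpectrum (𝓞 K))) (γ : ℝ)
    (s : ℂ) (T : ℝ) : W ψ S γ s T = ∑' x, Pool.Agent.N41.RM.cterm Pool.Agent.N41.RM.qv
      (Pool.Agent.N41.RM.rayA ψ S) s γ T x := by
  unfold W
  exact tsum_congr fun x => term_eq ψ S γ s T x

theorem law (h : Pool.Agent.R362.HL.IsRay 𝔣 e ψ) (S : Finset (HeightOneSpectrum (𝓞 K)))
    {L : ℂ → ℂ} (hL : IsContinuation ψ S L) {γ : ℝ} (hγ : Real.pi / 2 < γ) (s : ℂ) :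
    ∃ (r : ℤ) (ℓ : ℂ), meromorphicOrderAt L s = r ∧
      Complex.exp ℓ = meromorphicTrailingCoeffAt L s ∧
      (fun T : ℝ => W ψ S γ s T - (-r * (Real.log T - Lam γ) + ℓ)) =O[atTop]
        (fun T : ℝ => 1 / T) := by
  obtain ⟨hψ, -, -⟩ := h.xi
  have E := Pool.Agent.N41.RM.ray_ce hψ S
  obtain ⟨n, ℓ, h1, h2, h3⟩ := E.law (F := L) s (fun x _ => hL.1 _) (fun z hz => by
    rw [add_zero] at hz
    rw [hL.2 z hz]
    exact Pool.Agent.N41.RM.LS_tprod ψ S z) hγ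
  refine ⟨n, ℓ, h1, h2, h3.congr_left fun T => ?_⟩
  rw [W_eq]
  rfl

theorem prod_lim (h : Pool.Agent.R362.HL.IsRay 𝔣 e ψ) (S : Finset (HeightOneSpectrum (𝓞 K)))
    {L : ℂ → ℂ} (hL : IsContinuation ψ S L) {γ : ℝ} (hγ : Real.pi / 2 < γ) (s : ℂ) :
    ∃ r : ℤ, meromorphicOrderAt L s = r ∧ meromorphicTrailingCoeffAt L s ≠ 0 ∧
      Tendsto (fun T : ℝ => (T : ℂ) ^ r * Complex.exp (W ψ S γ s T)) atTop
        (𝓝 (Complex.exp (r * Lam γ) * meromorphicTrailingCoeffAt L s)) := by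
  obtain ⟨r, ℓ, h1, h2, h3⟩ := law h S hL hγ s
  refine ⟨r, h1, ?_, ?_⟩
  · rw [← h2]; exact Complex.exp_ne_zero _
  · rw [← h2]
    exact Pool.Agent.N41.RM.exp_of_law h3

theorem prodAt_eq (ψ : Ideal (𝓞 K) →*₀ ℂ) (S : Finset (HeightOneSpectrum (𝓞 K))) (γ : ℝ)
    (s : ℂ) (ρ : ℤ) (T : ℝ) : prodAt ψ S γ s ρ T = Complex.exp (-(ρ * Lam γ)) *
      ((T : ℂ) ^ ρ * Complex.exp (W ψ S γ s T)) := by
  unfold prodAt
  rw [mul_zpow, ← Complex.exp_int_mul]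
  have h1 : (ρ : ℂ) * -Lam γ = -(ρ * Lam γ) := by ring
  rw [h1]
  ring

/-- the limit along `t` in the two forms -/
theorem prodAt_lim {ψ : Ideal (𝓞 K) →*₀ ℂ} {S : Finset (HeightOneSpectrum (𝓞 K))} {γ : ℝ}
    {s : ℂ} {ρ : ℤ} {B : ℂ} {X : Type} {t : X → ℝ} {l : Filter X} :
    Tendsto (fun k => prodAt ψ S γ s ρ (t k)) l (𝓝 B) ↔
      Tendsto (fun k => (t k : ℂ) ^ ρ * Complex.exp (W ψ S γ s (t k))) l
        (𝓝 (Complex.exp (ρ * Lam γ) * B)) := by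
  have h0 : Complex.exp (ρ * Lam γ) * Complex.exp (-(ρ * Lam γ)) = 1 := by
    rw [← Complex.exp_add, add_neg_cancel, Complex.exp_zero]
  constructor
  · intro h
    refine (h.const_mul (Complex.exp (ρ * Lam γ))).congr fun k => ?_
    rw [prodAt_eq, ← mul_assoc, h0, one_mul]
  · intro h
    have h1 := h.const_mul (Complex.exp (-(ρ * Lam γ)))
    rw [← mul_assoc, mul_comm (Complex.exp (-(ρ * Lam γ))), h0, one_mul] at h1
    exact h1.congr fun k => (prodAt_eq ψ S γ s ρ (t k)).symm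

/-- the equivalence of the four statements at a point -/
theorem tfae_point (h : Pool.Agent.R362.HL.IsRay 𝔣 e ψ) (S : Finset (HeightOneSpectrum (𝓞 K)))
    {L : ℂ → ℂ} (hL : IsContinuation ψ S L) {γ : ℝ} (hγ : Real.pi / 2 < γ) (s : ℂ) (ρ : ℤ)
    (B : ℂ) (hB : B ≠ 0) : List.TFAE [
      Tendsto (fun z : ℂ => (z - s) ^ (-ρ) * L z) (𝓝[≠] s) (𝓝 B),
      meromorphicOrderAt L s = ρ ∧ meromorphicTrailingCoeffAt L s = B,
      Tendsto (prodAt ψ S γ s ρ) atTop (𝓝 B),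
      ∃ t : ℕ → ℝ, Tendsto t atTop atTop ∧
        Tendsto (fun k => prodAt ψ S γ s ρ (t k)) atTop (𝓝 B)] := by
  obtain ⟨r, e1, e3, e6⟩ := prod_lim h S hL hγ s
  have hmer : MeromorphicAt L s := hL.1 s
  tfae_have 1 → 2 := fun h3 => Pool.Agent.N41.RM.order_of_lim hmer hB h3
  tfae_have 2 → 1 := fun h3 => Pool.Agent.N41.RM.lim_of_order hmer h3.1 h3.2
  tfae_have 2 → 3 := by
    rintro ⟨h3, h4⟩
    rw [e1] at h3
    have h5 : r = ρ := by exact_mod_cast h3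
    subst h5
    rw [h4] at e6
    exact prodAt_lim.2 e6
  tfae_have 3 → 4 := by
    intro h3
    exact ⟨fun k => (k : ℝ), tendsto_natCast_atTop_atTop, h3.comp tendsto_natCast_atTop_atTop⟩
  tfae_have 4 → 2 := by
    rintro ⟨t, ht, h3⟩
    obtain ⟨h4, h5⟩ := Pool.Agent.N41.RM.iff_law e3 e6 ρ hB ht (prodAt_lim.1 h3)
    rw [e1, h4, h5]
    exact ⟨rfl, rfl⟩
  tfae_finish

theorem seq_iff (h : Pool.Agent.R362.HL.IsRay 𝔣 e ψ) (S : Finset (HeightOneSpectrum (𝓞 K)))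
    {L : ℂ → ℂ} (hL : IsContinuation ψ S L) {γ : ℝ} (hγ : Real.pi / 2 < γ) (s : ℂ) (ρ : ℤ)
    (B : ℂ) (hB : B ≠ 0) :
    (meromorphicOrderAt L s = ρ ∧ meromorphicTrailingCoeffAt L s = B) ↔
      ∃ t : ℕ → ℝ, Tendsto t atTop atTop ∧
        Tendsto (fun k => prodAt ψ S γ s ρ (t k)) atTop (𝓝 B) :=
  (tfae_point h S hL hγ s ρ B hB).out 1 3

end bridge

/-- **Main theorem.**  Let `ψ` be a primitive ray class character of the number field `K`, `S` a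
finite set of primes of `K` and `γ > π/2`.

* `W(s, T)` converges absolutely for all complex `s` and `T > 0`; `L_S(s, ψ)` has a continuation.
* For every continuation `L` of `L_S(s, ψ)` and every complex `s`, the order `r` of `L` at `s` is finite
  and `W(s, T) = -r (log T - Λ_γ) + ℓ + O(1/T)`, where `exp ℓ` is the leading coefficient of `L` at `s`.
* For all complex `s`, `B ≠ 0` and integers `ρ` the following are equivalent: `(z - s)^(-ρ) L(z) → B` as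
  `z → s`; `L` has order `ρ` and leading coefficient `B` at `s`; `(T e^{-Λ_γ})^ρ exp W(s, T) → B` as
  `T → ∞`; the same along one sequence `T_n → ∞`.
* Let `σ` be an automorphism of `ℂ`, `L` and `L'` the continuations of `L_S(s, ψ)` and `L_S(s, ψ^σ)`, and
  `R`, `R'` nonzero complex numbers (as the regulators `R_S(ψ, φ)` and `R_S(ψ^σ, φ)`).  Stark's
  equation `(R / L^*(0))^σ = R' / L'^*(0)` holds if and only if there are `A ≠ 0`, integers `ρ`, `ρ'` and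
  sequences `T_n, T'_n → ∞` such that `(T e^{-Λ_γ})^ρ exp W_ψ(0, T) → R / A` along the first and
  `(T e^{-Λ_γ})^ρ' exp W_{ψ^σ}(0, T) → R' / A^σ` along the second. -/
theorem result (K : Type) [Field K] [NumberField K] (𝔣 : Ideal (𝓞 K)) (e : InfinitePlace K → ℕ)
    (ψ : Ideal (𝓞 K) →*₀ ℂ) (hψ : IsRayClassCharacter 𝔣 e ψ)
    (S : Finset (HeightOneSpectrum (𝓞 K))) (γ : ℝ) (hγ : Real.pi / 2 < γ) :
    (∀ (s : ℂ) (T : ℝ), 0 < T → Summable fun x => ‖term ψ S γ s T x‖) ∧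
    (∃ L : ℂ → ℂ, IsContinuation ψ S L) ∧
    (∀ L : ℂ → ℂ, IsContinuation ψ S L →
      (∀ s : ℂ, ∃ (r : ℤ) (ℓ : ℂ), meromorphicOrderAt L s = r ∧
        Complex.exp ℓ = meromorphicTrailingCoeffAt L s ∧
        (fun T : ℝ => W ψ S γ s T - (-r * (Real.log T - Lam γ) + ℓ)) =O[atTop]
          (fun T : ℝ => 1 / T)) ∧
      ∀ (s : ℂ) (ρ : ℤ) (B : ℂ), B ≠ 0 → List.TFAE [
        Tendsto (fun z : ℂ => (z - s) ^ (-ρ) * L z) (𝓝[≠] s) (𝓝 B),
        meromorphicOrderAt L s = ρ ∧ meromorphicTrailingCoeffAt L s = B,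
        Tendsto (prodAt ψ S γ s ρ) atTop (𝓝 B),
        ∃ t : ℕ → ℝ, Tendsto t atTop atTop ∧
          Tendsto (fun k => prodAt ψ S γ s ρ (t k)) atTop (𝓝 B)]) ∧
    ∀ (σ : ℂ ≃+* ℂ) (L L' : ℂ → ℂ), IsContinuation ψ S L → IsContinuation (conj σ ψ) S L' →
      ∀ R R' : ℂ, R ≠ 0 → R' ≠ 0 →
        (σ (R / lead L) = R' / lead L' ↔
          ∃ (A : ℂ) (ρ ρ' : ℤ) (t t' : ℕ → ℝ), A ≠ 0 ∧ Tendsto t atTop atTop ∧
            Tendsto t' atTop atTop ∧
            Tendsto (fun k => prodAt ψ S γ 0 ρ (t k)) atTop (𝓝 (R / A)) ∧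
            Tendsto (fun k => prodAt (conj σ ψ) S γ 0 ρ' (t' k)) atTop (𝓝 (R' / σ A))) := by
  have hr := isRay hψ
  obtain ⟨hn, -, -⟩ := hr.xi
  refine ⟨fun s T hT => ?_, ?_, fun L hL => ⟨fun s => law hr S hL hγ s,
    fun s ρ B hB => tfae_point hr S hL hγ s ρ B hB⟩, ?_⟩
  · have E := Pool.Agent.N41.RM.ray_ce hn S
    refine (E.cterm_summable s γ hT).congr fun x => ?_
    rw [term_eq]
  · obtain ⟨Z, h1, h2⟩ := Pool.Agent.N41.RM.ray_mero_S hr S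
    exact ⟨Z, h1, h2⟩
  · intro σ L L' hL hL' R R' hR hR'
    have hr' := isRay_conj hψ σ
    obtain ⟨r, e1, e3, -⟩ := prod_lim hr S hL hγ 0
    obtain ⟨r', e1', e3', -⟩ := prod_lim hr' S hL' hγ 0
    have hl : lead L ≠ 0 := e3
    have hl' : lead L' ≠ 0 := e3'
    constructor
    · intro h
      have hA : R / lead L ≠ 0 := div_ne_zero hR hl
      have hRA : R / (R / lead L) = lead L := by field_simp
      have hRA' : R' / σ (R / lead L) = lead L' := by rw [h]; field_simp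
      obtain ⟨t, ht, ht2⟩ := (seq_iff hr S hL hγ 0 r (lead L) hl).1 ⟨e1, rfl⟩
      obtain ⟨t', ht', ht2'⟩ := (seq_iff hr' S hL' hγ 0 r' (lead L') hl').1 ⟨e1', rfl⟩
      refine ⟨R / lead L, r, r', t, t', hA, ht, ht', ?_, ?_⟩
      · rw [hRA]; exact ht2
      · rw [hRA']; exact ht2'
    · rintro ⟨A, ρ, ρ', t, t', hA, ht, ht', h1, h2⟩
      have hσA : σ A ≠ 0 := (map_ne_zero σ).2 hA
      have h3 := (seq_iff hr S hL hγ 0 ρ (R / A) (div_ne_zero hR hA)).2 ⟨t, ht, h1⟩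
      have h4 := (seq_iff hr' S hL' hγ 0 ρ' (R' / σ A) (div_ne_zero hR' hσA)).2
        ⟨t', ht', h2⟩
      have h5 : lead L = R / A := h3.2
      have h6 : lead L' = R' / σ A := h4.2
      rw [h5, h6]
      have h7 : R / (R / A) = A := by field_simp
      have h8 : R' / (R' / σ A) = σ A := by field_simp
      rw [h7, h8]

end Pool.Agent.Results.MP_46b841_nt.LeadingTermsFromPrimes
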