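import Pool.Agent.N19.BR.StMain
import Pool.Agent.N19.BR.AMain

/-!
# Stark's conjecture: reduction to special base fields, and an unconditional relation between the quotients `A`

`K` is a number field (for example `ℚ`), `L` a finite Galois extension of `K`, `S₀` a finite set of primes of `K`
and `k ≥ 1`.  There is a relation `∑ e_j [F_j] = [K]`, with coefficient `1` on the right, between the permutation
characters of finite extensions `F_j` of `K` such that the groups `Gal(L F_j / F_j)` are hyperelementary, each for
a prime number `p`, the divisors of `k` prime to `p` divide the local degrees of `F_j / K` at the primes above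
`S₀`, and `F_j` has at most two real places if `p ≠ 2` (`Pool.Agent.N19.BR.Rel`, ..., `Main`, `AMain`).

Let `M` be any finite Galois extension of `K` that contains the `F_j` (and `L`), `χ` a character of `Gal(M / K)`
(for example of `Gal(L / K)`; then its restriction to `Gal(M / F_j)` comes from the hyperelementary group
`Gal(L F_j / F_j)`), `S` a finite set of places with the infinite places and the primes at which `χ` is ramified,
and `φ : ℚ ⊗ X → ℚ ⊗ 𝒪_{M,S}^×` an isomorphism of `Gal(M / K)`-modules.  We prove:
* `L_S(s, χ) = ∏ L_S(s, χ|_{F_j}) ^ e_j`, exactly (`StFrob`, `StMain`), so `L_S^*(0, χ) = ∏ L_S^*(0, χ|_{F_j}) ^ e_j`;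
* `R_S(χ, φ) = ∏ R_S(χ|_{F_j}, φ) ^ e_j`, exactly (`Det`, `StDet`, `StReg`).  For an automorphism `T` of a
  representation `V` of a finite group `G` that commutes with `G` one has `det(T | V^G) = ∏ det(T | V^{H_j}) ^ e_j`
  if `∑ e_j 1_{H_j}^G = 1`, since the logarithmic derivatives of `det(1 + x (T - 1) | V^H)` are traces of
  endomorphisms that commute with `G`;
* so `A_S(χ, φ) = ∏ A_S(χ|_{F_j}, φ) ^ e_j`, and Stark's conjecture for the `χ|_{F_j}` implies it for `χ`.

The definitions are in `Pool.Agent.N19.BR.StDefs`, `ADefs`, `TDefs` and `Defs`.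
-/

set_option autoImplicit false

namespace Pool.Agent.Results.MP_46b841_nt.SpecialBaseFields

open NumberField IsDedekindDomain
open Pool.Agent.N19.BR.TDef (FieldList)
open Pool.Agent.N19.BR.MDef (HyperelementaryList)
open Pool.Agent.N19.BR.SDef

/-- **Stark's quotients over special base fields.**  For every finite Galois extension `L / K` of number fields,
every finite set `S₀` of primes of `K` and `k ≥ 1` there is a finite list of number fields `F_j ⊇ K` with integers
`e_j`, such that for every `j` there is a prime number `p` for which the Galois group of `L F_j / F_j` is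
`p`-hyperelementary, the divisors of `k` prime to `p` divide the local degrees of `F_j / K` at the primes above
`S₀`, and `F_j` has at most two real places if `p ≠ 2`, and such that the following holds for ALL finite Galois
extensions `M` of `K` with embeddings of the `F_j`, all finite sets `S` of primes of `K`, all complex
representations `ρ` of `Gal(M / K)` unramified outside `S`, with character `χ`, and all `φ`, where `T` is `λ ∘ φ`:
`A_S(χ, φ) = ∏ A_S(χ|_{F_j}, φ) ^ e_j` (and `L_S(s, χ)` has a meromorphic continuation if the `L_S(s, χ|_{F_j})` have),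
and if Stark's conjecture `A_S(χ|_{F_j}, φ)^σ = A_S(χ^σ|_{F_j}, φ)` is true over all the fields `F_j`, then it is
true over `K`. -/
theorem result (K : Type) [Field K] [NumberField K] (L : Type) [Field L] [NumberField L]
    [Algebra K L] [IsGalois K L] (S₀ : Set (HeightOneSpectrum (𝓞 K))) (hS₀ : S₀.Finite) (k : ℕ)
    (hk : k ≠ 0) :
    ∃ Y : FieldList K, HyperelementaryList L S₀ k Y ∧
      ∀ (M : Type) [Field M] [NumberField M] [Algebra K M] [IsGalois K M]
        (f : ∀ j, Y.F j →ₐ[K] M) (S : Set (HeightOneSpectrum (𝓞 K))), S.Finite →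
      ∀ (n : ℕ) (ρ : Gal(M/K) →* Matrix (Fin n) (Fin n) ℂ), Unramified S ρ →
      ∀ T : (Place S M → ℂ) →ₗ[ℂ] (Place S M → ℂ), IsStarkMap S T →
        (∀ A : Fin Y.r → ℂ, (∀ j, IsStarkQuotient S ρ T (f j) (A j)) →
          IsStarkQuotient S ρ T (Algebra.ofId K M) (∏ j, A j ^ Y.e j)) ∧
        ((∀ j, StarkConjecture S ρ T (f j)) → StarkConjecture S ρ T (Algebra.ofId K M)) := by
  obtain ⟨Y, hY, hrel⟩ := Pool.Agent.N19.BR.hyper_list K L S₀ hS₀ k hk
  refine ⟨Y, hY, fun M _ _ _ _ f S hS n ρ hρ T hT => ⟨fun A hA => ?_, fun h => ?_⟩⟩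
  · exact Pool.Agent.N19.BR.quotient_rel (Z := fun j => (⟨Y.F j⟩ : Pool.Agent.R433.MD.Ext K))
      (e := Y.e) (A := A) hS hρ hrel f hT hA
  · exact Pool.Agent.N19.BR.stark_of_rel (Z := fun j => (⟨Y.F j⟩ : Pool.Agent.R433.MD.Ext K))
      (e := Y.e) hS hρ hrel f hT h

end Pool.Agent.Results.MP_46b841_nt.SpecialBaseFields
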