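import Pool.Agent.N770.SK.Final2

/-!
# Stark's conjecture: reduction to totally complex base fields

All number fields are subfields of the field `Qb` of algebraic numbers, `GK K = Gal(Qb/K)` is a
subgroup of `GQ = Gal(Qb/ℚ)` (with the Krull topology), and functions on `GK K` are extended by zero to
`GQ`.  The virtual characters (`IsVirt K θ`) are the integral combinations of the traces of the
representations of `GK K` with open kernel; `IsOneDim K f`: `f` is a one-dimensional character;
`IsQuadratic K f`: moreover `f` has the values `1` and `-1`; `IndK K K' θ` is the induced virtual
character.  `InGen K θ`: `θ` is an integral combination of characters `IndK K K' f`, `K' ⊇ K`, where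
`f` is one-dimensional and `K'` is totally complex, or `f` is a one-dimensional character of order at
most two of `K'`.

(1) A Brauer induction theorem without real places.  For every number field `K` and every virtual
character `θ` of `GK K`, the virtual character `2 θ` is in `InGen K`.  If `θ` is the character of a
representation `ρ` with `ρ(g) ^ e = 1` for all `g`, where `4` does not divide `e`, then `θ` is in
`InGen K`.

This is sharp: if `K` has a real embedding (`HasReal K`), then a one-dimensional character `f` is in
`InGen K` if and only if its order is not divisible by `4` (`OrderNotFour K f`), and for one-dimensional
characters `f`, `f'` the difference `f - f'` is in `InGen K` if and only if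
`f ^ (2 m) = f' ^ (2 m)` for an odd number `m` (`SquaresAgree K f f'`).

(2) Let `D` be a defect function (`IsDefect`): `D K θ` is a nonzero complex number, multiplicative in
`θ`, invariant under induction and equal to `1` for the one-dimensional characters of order at most two.
The example is `D K θ = A(θ) ^ σ / A(θ ^ σ)` for a fixed automorphism `σ` of `ℂ`, where `A` is the ratio
of Stark's regulator and the leading coefficient at `s = 0` of the Artin L-series (this does not depend
on the choices; it is invariant under induction, and `1` for characters of order at most two by the
analytic class number formula).  Stark's conjecture says that it is always `1`.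

Suppose that it is `1` for the one-dimensional characters of the totally complex fields.  Then for
every number field `K`:
* `D K θ = ± 1` for all `θ`;
* `D K θ = 1` for the characters `θ` of finite quotients of exponent not divisible by `4`;
* `D K χ = D K χ'` for one-dimensional `χ`, `χ'` with `χ ^ (2 m) = χ' ^ (2 m)` for an odd number `m`
  (in particular if `χ ^ 2 = χ' ^ 2`);
* if `D K χ = 1` for the one-dimensional characters `χ` of `2`-power order with `χ(c) = -1` for all
  complex conjugations `c` in `GK K`, then `D K χ = 1` for all one-dimensional characters of `GK K`
  (if `K` is totally real, the hypothesis is a case of Siegel's theorem on totally odd characters);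
* if the hypothesis of the last point holds for all finite extensions of `K`, then `D K θ = 1` for all
  virtual characters `θ` of `GK K`.

The idea of the proof.  The centralizer of a complex conjugation `c` is `{1, c}`, and there are
quadratic characters with arbitrary signs at the real places.  A class of virtual characters which is
closed under induction and contains everything over the totally complex fields contains `1 + δ` for
totally odd quadratic `δ`, and, for a totally even quadratic character with kernel `V₁ ⊂ V` and suitable
quadratic `α` of `V₁`, the character `1 + δ + Ind α`, the permutation character on the four
points of the tensor induction of `1 + α`.  Both together, in a tower of totally even quadratic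
extensions, twisted by `χ - ε` where `ε` is a quadratic character with the same signs as `χ`, give the
result for `χ` of 2-power order.  Characters of odd order are removed by Brauer's theorem for a finite
quotient in which the images of the complex conjugations still have small centralizers.

Sharpness.  Let `P` be a subgroup of 2-power order of a finite quotient of `GK K` which contains the image
of a complex conjugation, and `l` a one-dimensional character of `P` with `l ^ 2 ≠ 1`.  The sum of the
multiplicities of the characters `l ε` in the restriction of `θ` to `P`, `ε` running through the
characters of `P` of order at most two, is an even number for all the generators `θ` of `InGen K`: by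
Mackey's formula the restriction is a sum of characters induced from subgroups `H` of `P`.  If `H` is
proper the sum is the number of the `ε` with a given restriction to `H`, which is even; if `H` is `P`
then the field of the generator has a real place, so that the character has order at most two and does
not contribute.
-/

set_option autoImplicit false

namespace Pool.Agent.Results.MP_46b841_nt.TotallyComplexBaseFields

open Pool.Agent.N770.SK

theorem result :
    -- (1) the induction theorem, and its sharpness
    (∀ K, IsNF K → (∀ θ, IsVirt K θ → InGen K (θ + θ)) ∧ (∀ θ, IsNotFour K θ → InGen K θ) ∧
      (HasReal K → (∀ f, IsOneDim K f → (InGen K f ↔ OrderNotFour K f)) ∧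
        ∀ f, IsOneDim K f → ∀ f', IsOneDim K f' → (InGen K (f - f') ↔ SquaresAgree K f f'))) ∧
    -- (2) defect functions which are trivial over the totally complex fields
    (∀ D, IsDefect D → TrivialComplex D → ∀ K, IsNF K →
      (∀ θ, IsVirt K θ → D K θ = 1 ∨ D K θ = -1) ∧ (∀ θ, IsNotFour K θ → D K θ = 1) ∧
      (∀ f, IsOneDim K f → ∀ f', IsOneDim K f' → SquaresAgree K f f' → D K f = D K f') ∧
      ((∀ f, IsOddTwo K f → D K f = 1) → ∀ f, IsOneDim K f → D K f = 1) ∧
      ((∀ K', IsNF K' → K ≤ K' → ∀ f, IsOddTwo K' f → D K' f = 1) →
        ∀ θ, IsVirt K θ → D K θ = 1)) :=
  ⟨gen_all', fun _ h hc K hK => defect_complex' h hc K hK⟩

end Pool.Agent.Results.MP_46b841_nt.TotallyComplexBaseFields
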